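import Mathlib

namespace Pool.Agent.H.MP_0bef22_co

open Finset

noncomputable def E (θ : ℝ) : ℂ := Complex.exp (Complex.I * ((2 * Real.pi * θ : ℝ) : ℂ))

lemma E_add (x y : ℝ) : E (x + y) = E x * E y := by
  unfold E
  rw [← Complex.exp_add]
  congr 1
  push_cast
  ring

lemma E_zero : E 0 = 1 := by
  unfold E
  simp

lemma E_int (m : ℤ) : E m = 1 := by
  unfold E
  rw [← Complex.exp_int_mul_two_pi_mul_I m]
  congr 1
  push_cast
  ring

lemma norm_E (x : ℝ) : ‖E x‖ = 1 := by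
  unfold E
  rw [mul_comm]
  exact Complex.norm_exp_ofReal_mul_I _

lemma conj_E (x : ℝ) : (starRingEnd ℂ) (E x) = E (-x) := by
  unfold E
  rw [← Complex.exp_conj]
  congr 1
  simp only [map_mul, Complex.conj_I, Complex.conj_ofReal]
  push_cast
  ring

lemma norm_E_sub_one (x : ℝ) (m : ℤ) : ‖E x - 1‖ ≤ 2 * Real.pi * |x - m| := by
  have h : E x = E (x - m) := by
    have : x = (x - m) + m := by ring
    conv_lhs => rw [this, E_add, E_int, mul_one]
  rw [h]
  unfold E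
  refine (Real.norm_exp_I_mul_ofReal_sub_one_le).trans ?_
  rw [Real.norm_eq_abs, abs_mul, abs_of_pos (by positivity : (0 : ℝ) < 2 * Real.pi)]

lemma E_nat_mul (x : ℝ) (r : ℕ) : E (r * x) = E x ^ r := by
  induction r with
  | zero => simp [E_zero]
  | succ k ih => rw [pow_succ, ← ih, ← E_add]; congr 1; push_cast; ring

lemma orth (M : ℕ) (hM : 0 < M) (d : ℤ) (hd : |d| < M) :
    ∑ r ∈ range M, E (r * (d / M)) = if d = 0 then (M : ℂ) else 0 := by
  split_ifs with h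
  · subst h
    simp [E_zero]
  · have hM' : (M : ℝ) ≠ 0 := by positivity
    have hne : E (d / M) ≠ 1 := by
      intro h1
      unfold E at h1
      rw [Complex.exp_eq_one_iff] at h1
      obtain ⟨k, hk⟩ := h1
      have h2 : ((2 * Real.pi * (d / M) : ℝ) : ℂ) = ((k * (2 * Real.pi) : ℝ) : ℂ) := by
        apply mul_left_cancel₀ Complex.I_ne_zero
        rw [hk]; push_cast; ring
      have h3 : (2 * Real.pi * (d / M) : ℝ) = k * (2 * Real.pi) := by exact_mod_cast h2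
      have h4 : (d : ℝ) = k * M := by
        have hp : (2 * Real.pi) ≠ 0 := by positivity
        have : (d / M : ℝ) = k := by
          apply mul_left_cancel₀ hp
          rw [h3]; ring
        field_simp at this
        linarith
      have h5 : d = k * M := by exact_mod_cast h4
      have hk0 : k ≠ 0 := by
        rintro rfl
        apply h; simp [h5]
      have : (M : ℤ) ≤ |d| := by
        rw [h5, abs_mul, Nat.abs_cast]
        have : 1 ≤ |k| := Int.one_le_abs hk0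
        nlinarith [Int.natCast_nonneg M]
      omega
    have hpow : E (d / M) ^ M = 1 := by
      rw [← E_nat_mul]
      have : (M : ℝ) * (d / M) = d := by field_simp
      rw [this, E_int]
    simp_rw [E_nat_mul]
    rw [geom_sum_eq hne, hpow]
    simp

/-- Fourier sum. -/
noncomputable def F (n M : ℕ) (u : ℕ → ℝ) (a : ℤ) (r : ℕ) : ℂ :=
  ∑ x ∈ Icc 1 n, (u x : ℂ) * E (r * (((a * x : ℤ) : ℝ) / M))

lemma norm_F_le (n M : ℕ) (u : ℕ → ℝ) (hu : ∀ x, |u x| ≤ 1) (a : ℤ) (r : ℕ) :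
    ‖F n M u a r‖ ≤ n := by
  unfold F
  refine (norm_sum_le _ _).trans ?_
  have : ∀ x ∈ Icc 1 n, ‖(u x : ℂ) * E (r * (((a * x : ℤ) : ℝ) / M))‖ ≤ 1 := by
    intro x _
    rw [norm_mul, norm_E, mul_one, Complex.norm_real]
    exact hu x
  refine (sum_le_sum this).trans ?_
  simp

lemma parseval (n M : ℕ) (hM : 0 < M) (u : ℕ → ℝ) (hu : ∀ x, |u x| ≤ 1) (a : ℤ) (ha : a ≠ 0)
    (haM : |a| * n < M) : ∑ r ∈ range M, ‖F n M u a r‖ ^ 2 ≤ (M : ℝ) * n := by
  have key : ((∑ r ∈ range M, ‖F n M u a r‖ ^ 2 : ℝ) : ℂ)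
      = ((M * ∑ x ∈ Icc 1 n, u x ^ 2 : ℝ) : ℂ) := by
    push_cast
    have h1 : ∀ r ∈ range M, ((‖F n M u a r‖ : ℂ)) ^ 2
        = ∑ x ∈ Icc 1 n, ∑ y ∈ Icc 1 n,
          (u x : ℂ) * u y * E (r * (((a * x - a * y : ℤ) : ℝ) / M)) := by
      intro r _
      rw [← Complex.mul_conj']
      unfold F
      rw [map_sum, sum_mul_sum]
      refine sum_congr rfl fun x _ => sum_congr rfl fun y _ => ?_
      rw [map_mul, conj_E, Complex.conj_ofReal]
      have : (r * (((a * x - a * y : ℤ) : ℝ) / M) : ℝ)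
          = r * (((a * x : ℤ) : ℝ) / M) + -(r * (((a * y : ℤ) : ℝ) / M)) := by
        push_cast; ring
      rw [this, E_add]; ring
    rw [sum_congr rfl h1, sum_comm, mul_sum]
    refine sum_congr rfl fun x hx => ?_
    rw [sum_comm]
    have h2 : ∀ y ∈ Icc 1 n, ∑ r ∈ range M,
        (u x : ℂ) * u y * E (r * (((a * x - a * y : ℤ) : ℝ) / M))
          = if x = y then (M : ℂ) * (u x : ℂ) ^ 2 else 0 := by
      intro y hy
      rw [← mul_sum, orth M hM]
      · by_cases hxy : x = y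
        · subst hxy; simp; ring
        · have : a * x - a * y ≠ 0 := by
            rw [← mul_sub]
            refine mul_ne_zero ha ?_
            intro h; apply hxy; omega
          simp [hxy, this]
      · rw [← mul_sub, abs_mul]
        rw [mem_Icc] at hx hy
        have : |(x : ℤ) - y| ≤ n := by
          rw [abs_le]; constructor <;> omega
        have := mul_le_mul_of_nonneg_left this (abs_nonneg a)
        omega
    rw [sum_congr rfl h2, sum_ite_eq]
    simp [hx]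
  have key' : ∑ r ∈ range M, ‖F n M u a r‖ ^ 2 = M * ∑ x ∈ Icc 1 n, u x ^ 2 := by
    exact_mod_cast key
  rw [key']
  refine mul_le_mul_of_nonneg_left ?_ (by positivity)
  have : ∀ x ∈ Icc 1 n, u x ^ 2 ≤ 1 := by
    intro x _
    have := hu x
    rw [← sq_abs]
    nlinarith [abs_nonneg (u x)]
  refine (sum_le_sum this).trans ?_
  simp

/-- Weighted number of solutions of `a x + b y - c z = s`. -/
noncomputable def T (a b c n : ℕ) (u v t : ℕ → ℝ) (s : ℤ) : ℝ :=
  ∑ x ∈ Icc 1 n, ∑ y ∈ Icc 1 n, ∑ z ∈ Icc 1 n,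
    if (a : ℤ) * x + b * y - c * z = s then u x * v y * t z else 0

lemma T_fourier (a b c n M : ℕ) (hM : 0 < M) (u v t : ℕ → ℝ) (s : ℤ)
    (hs : ((a + b + c) * n : ℤ) + |s| < M) :
    (M : ℂ) * (T a b c n u v t s : ℂ)
      = ∑ r ∈ range M, F n M u a r * F n M v b r * F n M t (-c) r
          * E (r * (((-s : ℤ) : ℝ) / M)) := by
  have h1 : ∀ r ∈ range M, F n M u a r * F n M v b r * F n M t (-c) r
          * E (r * (((-s : ℤ) : ℝ) / M))
        = ∑ x ∈ Icc 1 n, ∑ y ∈ Icc 1 n, ∑ z ∈ Icc 1 n,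
          (u x : ℂ) * v y * t z * E (r * ((((a : ℤ) * x + b * y - c * z - s : ℤ) : ℝ) / M)) := by
    intro r _
    unfold F
    rw [sum_mul_sum, sum_mul, sum_mul]
    refine sum_congr rfl fun x _ => ?_
    rw [sum_mul, sum_mul]
    refine sum_congr rfl fun y _ => ?_
    rw [mul_sum, sum_mul]
    refine sum_congr rfl fun z _ => ?_
    have : (r * ((((a : ℤ) * x + b * y - c * z - s : ℤ) : ℝ) / M) : ℝ)
        = r * ((((a : ℤ) * x : ℤ) : ℝ) / M) + r * ((((b : ℤ) * y : ℤ) : ℝ) / M)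
          + r * ((((-c : ℤ) * z : ℤ) : ℝ) / M) + r * (((-s : ℤ) : ℝ) / M) := by
      push_cast; ring
    rw [this, E_add, E_add, E_add]; ring
  rw [sum_congr rfl h1, sum_comm]
  unfold T
  push_cast
  rw [mul_sum]
  refine sum_congr rfl fun x hx => ?_
  conv_rhs => rw [sum_comm]
  rw [mul_sum]
  refine sum_congr rfl fun y hy => ?_
  conv_rhs => rw [sum_comm]
  rw [mul_sum]
  refine sum_congr rfl fun z hz => ?_
  rw [← mul_sum]
  have hb : |(a : ℤ) * x + b * y - c * z - s| < M := by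
    rw [mem_Icc] at hx hy hz
    have e1 : (a : ℤ) * x ≤ a * n := mul_le_mul_of_nonneg_left (by omega) (by positivity)
    have e2 : (b : ℤ) * y ≤ b * n := mul_le_mul_of_nonneg_left (by omega) (by positivity)
    have e3 : (c : ℤ) * z ≤ c * n := mul_le_mul_of_nonneg_left (by omega) (by positivity)
    have f1 : 0 ≤ (a : ℤ) * x := by positivity
    have f2 : 0 ≤ (b : ℤ) * y := by positivity
    have f3 : 0 ≤ (c : ℤ) * z := by positivity
    have g1 := le_abs_self s
    have g2 := neg_abs_le s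
    have g3 : 0 ≤ (a : ℤ) * n := by positivity
    have g4 : 0 ≤ (b : ℤ) * n := by positivity
    have g5 : 0 ≤ (c : ℤ) * n := by positivity
    rw [abs_lt]
    constructor <;> nlinarith
  have := orth M hM _ hb
  push_cast at this
  rw [this]
  by_cases h : (a : ℤ) * x + b * y - c * z = s
  · simp [h]; ring
  · have h' : (a : ℤ) * x + b * y - c * z - s ≠ 0 := fun h0 => h (by omega)
    simp [h, h']

lemma T_diff (a b c n M : ℕ) (ha : 0 < a) (hb : 0 < b) (hM : 0 < M) (u v t : ℕ → ℝ)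
    (hu : ∀ x, |u x| ≤ 1) (hv : ∀ x, |v x| ≤ 1) (ht : ∀ x, |t x| ≤ 1) (s : ℤ)
    (hs : ((a + b + c) * n : ℤ) + |s| < M) (δ : ℝ) (hδ : 0 ≤ δ)
    (hspec : ∀ r ∈ range M, δ * n ≤ ‖F n M t (-c) r‖ →
      ‖E (r * (((-s : ℤ) : ℝ) / M)) - 1‖ ≤ 2 * δ) :
    |T a b c n u v t s - T a b c n u v t 0| ≤ 2 * δ * n ^ 2 := by
  have hs0 : ((a + b + c) * n : ℤ) + |(0 : ℤ)| < M := by
    have := abs_nonneg s
    simp only [abs_zero]; omega
  have h1 := T_fourier a b c n M hM u v t s hs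
  have h2 := T_fourier a b c n M hM u v t 0 hs0
  have h3 : (M : ℂ) * ((T a b c n u v t s - T a b c n u v t 0 : ℝ) : ℂ)
      = ∑ r ∈ range M, F n M u a r * F n M v b r * (F n M t (-c) r
          * (E (r * (((-s : ℤ) : ℝ) / M)) - 1)) := by
    push_cast at h1 h2 ⊢
    rw [mul_sub, h1, h2, ← sum_sub_distrib]
    refine sum_congr rfl fun r _ => ?_
    simp [E_zero]; ring
  have h4 : (M : ℝ) * |T a b c n u v t s - T a b c n u v t 0|
      ≤ ∑ r ∈ range M, (‖F n M u a r‖ ^ 2 + ‖F n M v b r‖ ^ 2) / 2 * (2 * δ * n) := by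
    have : (M : ℝ) * |T a b c n u v t s - T a b c n u v t 0|
        = ‖(M : ℂ) * ((T a b c n u v t s - T a b c n u v t 0 : ℝ) : ℂ)‖ := by
      rw [norm_mul, Complex.norm_real, Complex.norm_natCast, Real.norm_eq_abs]
    rw [this, h3]
    refine (norm_sum_le _ _).trans (sum_le_sum fun r hr => ?_)
    rw [norm_mul, norm_mul]
    have k1 : ‖F n M t (-c) r * (E (r * (((-s : ℤ) : ℝ) / M)) - 1)‖ ≤ 2 * δ * n := by
      rw [norm_mul]
      by_cases hc : δ * n ≤ ‖F n M t (-c) r‖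
      · have := hspec r hr hc
        have h5 := norm_F_le n M t ht (-c) r
        calc _ ≤ (n : ℝ) * (2 * δ) := mul_le_mul h5 this (norm_nonneg _) (by positivity)
          _ = _ := by ring
      · push Not at hc
        have h6 : ‖E (r * (((-s : ℤ) : ℝ) / M)) - 1‖ ≤ 2 := by
          refine (norm_sub_le _ _).trans ?_
          rw [norm_E, norm_one]; norm_num
        calc _ ≤ (δ * n) * 2 := mul_le_mul hc.le h6 (norm_nonneg _) (by positivity)
          _ = _ := by ring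
    have k2 : ‖F n M u a r‖ * ‖F n M v b r‖ ≤ (‖F n M u a r‖ ^ 2 + ‖F n M v b r‖ ^ 2) / 2 := by
      nlinarith [sq_nonneg (‖F n M u a r‖ - ‖F n M v b r‖)]
    exact mul_le_mul k2 k1 (norm_nonneg _) (by positivity)
  have g0 := abs_nonneg s
  have g3 : 0 ≤ (a : ℤ) * n := by positivity
  have g4 : 0 ≤ (b : ℤ) * n := by positivity
  have g5 : 0 ≤ (c : ℤ) * n := by positivity
  have p1 := parseval n M hM u hu a (by exact_mod_cast ha.ne') (by
    rw [Nat.abs_cast]; nlinarith)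
  have p2 := parseval n M hM v hv b (by exact_mod_cast hb.ne') (by
    rw [Nat.abs_cast]; nlinarith)
  rw [← sum_mul, ← sum_div, sum_add_distrib] at h4
  have h5 : (M : ℝ) * |T a b c n u v t s - T a b c n u v t 0| ≤ M * (2 * δ * n ^ 2) := by
    refine h4.trans ?_
    have : ((∑ r ∈ range M, ‖F n M u a r‖ ^ 2) + ∑ r ∈ range M, ‖F n M v b r‖ ^ 2) / 2
        ≤ (M : ℝ) * n := by linarith
    calc _ ≤ ((M : ℝ) * n) * (2 * δ * n) := mul_le_mul_of_nonneg_right this (by positivity)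
      _ = _ := by ring
  exact le_of_mul_le_mul_left h5 (by exact_mod_cast hM)

/-- Simultaneous Dirichlet approximation. -/
lemma dirichlet (Λ : Finset ℕ) (θ : ℕ → ℝ) (K : ℕ) (hK : 0 < K) :
    ∃ Q : ℕ, 1 ≤ Q ∧ Q ≤ K ^ Λ.card ∧ ∀ r ∈ Λ, ∃ m : ℤ, |Q * θ r - m| ≤ 1 / K := by
  classical
  have hKr : (0 : ℝ) < K := by exact_mod_cast hK
  have hlt : ∀ x : ℝ, ⌊K * Int.fract x⌋₊ < K := by
    intro x
    rw [Nat.floor_lt (mul_nonneg hKr.le (Int.fract_nonneg x))]
    have := Int.fract_lt_one x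
    nlinarith
  let g : Fin (K ^ Λ.card + 1) → (Λ → Fin K) :=
    fun q r => ⟨⌊K * Int.fract ((q : ℕ) * θ r)⌋₊, hlt _⟩
  have hcard : Fintype.card (Λ → Fin K) < Fintype.card (Fin (K ^ Λ.card + 1)) := by
    simp
  obtain ⟨p, q, hpq, hg⟩ := Fintype.exists_ne_map_eq_of_card_lt g hcard
  have main : ∀ p q : Fin (K ^ Λ.card + 1), (p : ℕ) < q → g p = g q →
      ∃ Q : ℕ, 1 ≤ Q ∧ Q ≤ K ^ Λ.card ∧ ∀ r ∈ Λ, ∃ m : ℤ, |Q * θ r - m| ≤ 1 / K := by
    intro p q hlt' hg
    refine ⟨q - p, by omega, by have := q.2; omega, fun r hr => ?_⟩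
    have h1 : ⌊K * Int.fract ((p : ℕ) * θ r)⌋₊ = ⌊K * Int.fract ((q : ℕ) * θ r)⌋₊ := by
      have := congrFun hg ⟨r, hr⟩
      exact congrArg Fin.val this
    refine ⟨⌊(q : ℕ) * θ r⌋ - ⌊(p : ℕ) * θ r⌋, ?_⟩
    have e : (((q : ℕ) - (p : ℕ) : ℕ) : ℝ) * θ r - ((⌊(q : ℕ) * θ r⌋ - ⌊(p : ℕ) * θ r⌋ : ℤ) : ℝ)
        = Int.fract ((q : ℕ) * θ r) - Int.fract ((p : ℕ) * θ r) := by
      rw [Nat.cast_sub hlt'.le]
      unfold Int.fract
      push_cast; ring
    rw [e]
    have a1 := Nat.floor_le (mul_nonneg hKr.le (Int.fract_nonneg ((p : ℕ) * θ r)))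
    have a2 := Nat.floor_le (mul_nonneg hKr.le (Int.fract_nonneg ((q : ℕ) * θ r)))
    have b1 := Nat.lt_floor_add_one (K * Int.fract ((p : ℕ) * θ r))
    have b2 := Nat.lt_floor_add_one (K * Int.fract ((q : ℕ) * θ r))
    rw [h1] at a1 b1
    have e2 : |Int.fract ((q : ℕ) * θ r) - Int.fract ((p : ℕ) * θ r)| * K
        = |K * Int.fract ((q : ℕ) * θ r) - K * Int.fract ((p : ℕ) * θ r)| := by
      rw [← mul_sub, abs_mul, abs_of_pos hKr, mul_comm]
    rw [le_div_iff₀ hKr, e2, abs_le]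
    constructor <;> linarith
  rcases lt_or_gt_of_ne (fun h => hpq (Fin.ext h)) with h | h
  · exact main p q h hg
  · exact main q p h hg.symm

end Pool.Agent.H.MP_0bef22_co
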