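import Pool.Agent.H.MP_0bef22_co.A

namespace Pool.Agent.H.MP_0bef22_co

open Finset

/-- Weighted count of the solutions of `a x + b y - c z = s` in `[n]` under a colouring. -/
noncomputable def W (a b c : ℕ) (w : Fin 3 → Fin 3 → Fin 3 → ℝ) (n : ℕ) (f : ℕ → Fin 3)
    (s : ℤ) : ℝ :=
  ∑ x ∈ Icc 1 n, ∑ y ∈ Icc 1 n, ∑ z ∈ Icc 1 n,
    if (a : ℤ) * x + b * y - c * z = s then w (f x) (f y) (f z) else 0

noncomputable def ind (f : ℕ → Fin 3) (i : Fin 3) (x : ℕ) : ℝ := if f x = i then 1 else 0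

lemma abs_ind (f : ℕ → Fin 3) (i : Fin 3) (x : ℕ) : |ind f i x| ≤ 1 := by
  unfold ind; split_ifs <;> simp

lemma W_eq (a b c : ℕ) (w : Fin 3 → Fin 3 → Fin 3 → ℝ) (n : ℕ) (f : ℕ → Fin 3) (s : ℤ) :
    W a b c w n f s = ∑ p : Fin 3 × Fin 3 × Fin 3,
      w p.1 p.2.1 p.2.2 * T a b c n (ind f p.1) (ind f p.2.1) (ind f p.2.2) s := by
  unfold W T
  simp_rw [mul_sum]
  rw [sum_comm (s := univ)]
  refine sum_congr rfl fun x _ => ?_
  rw [sum_comm (s := univ)]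
  refine sum_congr rfl fun y _ => ?_
  rw [sum_comm (s := univ)]
  refine sum_congr rfl fun z _ => ?_
  split_ifs with h
  · rw [Fintype.sum_eq_single (f x, f y, f z)]
    · simp [ind]
    · rintro ⟨i, j, k⟩ hne
      by_cases h1 : f x = i
      · by_cases h2 : f y = j
        · by_cases h3 : f z = k
          · exact absurd (by rw [h1, h2, h3]) hne
          · simp [ind, h3]
        · simp [ind, h2]
      · simp [ind, h1]
  · simp

/-- Almost periodicity of the solution count in the shift. -/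
lemma almost_periodic (a b c : ℕ) (ha : 0 < a) (hb : 0 < b) (hc : 0 < c) (ε : ℝ) (hε : 0 < ε) :
    ∃ Q0 : ℕ, 1 ≤ Q0 ∧ ∀ n, Q0 ≤ n → ∀ f : ℕ → Fin 3, ∃ Q : ℕ, 1 ≤ Q ∧ Q ≤ Q0 ∧
      ∀ w : Fin 3 → Fin 3 → Fin 3 → ℝ, (∀ i j k, |w i j k| ≤ 1) →
        ∀ j : ℤ, |j| ≤ a + b + c → |W a b c w n f (Q * j) - W a b c w n f 0| ≤ ε * n ^ 2 := by
  classical
  set J : ℕ := a + b + c with hJ
  have hJ0 : 0 < J := by omega
  set δ : ℝ := ε / 54 with hδ
  have hδ0 : 0 < δ := by positivity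
  set K : ℕ := ⌈4 * J / δ⌉₊ with hK
  have hJr : (0 : ℝ) < J := by exact_mod_cast hJ0
  have hK0 : 0 < K := Nat.ceil_pos.mpr (by positivity)
  have hKr : (0 : ℝ) < K := by exact_mod_cast hK0
  set d0 : ℕ := ⌈9 * J / δ ^ 2⌉₊ with hd0
  refine ⟨K ^ d0, Nat.one_le_pow _ _ hK0, fun n hn f => ?_⟩
  have hn0 : 0 < n := lt_of_lt_of_le (Nat.pow_pos hK0) hn
  have hnr : (0 : ℝ) < n := by exact_mod_cast hn0
  set M : ℕ := 3 * J * n with hM
  have hM0 : 0 < M := by positivity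
  let Sp : Fin 3 → Finset ℕ := fun i =>
    (range M).filter fun r => δ * n ≤ ‖F n M (ind f i) (-c) r‖
  have hSp : ∀ i, ((Sp i).card : ℝ) ≤ 3 * J / δ ^ 2 := by
    intro i
    have p := parseval n M hM0 (ind f i) (abs_ind f i) (-c)
      (by simpa using hc.ne') (by
        rw [abs_neg, Nat.abs_cast, hM, hJ]
        push_cast
        have : (0 : ℤ) < n := by exact_mod_cast hn0
        have : (0 : ℤ) < c := by exact_mod_cast hc
        have : (0 : ℤ) ≤ a := by positivity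
        have : (0 : ℤ) ≤ b := by positivity
        nlinarith)
    have q1 : ∑ r ∈ Sp i, ‖F n M (ind f i) (-c) r‖ ^ 2
        ≤ ∑ r ∈ range M, ‖F n M (ind f i) (-c) r‖ ^ 2 :=
      sum_le_sum_of_subset_of_nonneg (filter_subset _ _) fun _ _ _ => by positivity
    have q2 : ((Sp i).card : ℝ) * (δ * n) ^ 2 ≤ ∑ r ∈ Sp i, ‖F n M (ind f i) (-c) r‖ ^ 2 := by
      rw [← nsmul_eq_mul, ← sum_const]
      refine sum_le_sum fun r hr => ?_
      have := (mem_filter.mp hr).2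
      exact pow_le_pow_left₀ (by positivity) this 2
    have q3 : ((Sp i).card : ℝ) * (δ * n) ^ 2 ≤ (M : ℝ) * n := q2.trans (q1.trans p)
    rw [le_div_iff₀ (by positivity)]
    rw [hM] at q3
    push_cast at q3
    have : ((Sp i).card : ℝ) * δ ^ 2 * n ^ 2 ≤ 3 * J * n ^ 2 := by nlinarith
    exact le_of_mul_le_mul_right this (by positivity)
  let Λ : Finset ℕ := univ.biUnion Sp
  have hΛ : Λ.card ≤ d0 := by
    have h1 : (Λ.card : ℝ) ≤ 9 * J / δ ^ 2 := by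
      have : Λ.card ≤ ∑ i, (Sp i).card := card_biUnion_le
      have h2 : (Λ.card : ℝ) ≤ ∑ i, ((Sp i).card : ℝ) := by exact_mod_cast this
      refine h2.trans ((sum_le_sum fun i _ => hSp i).trans ?_)
      simp only [sum_const, card_univ, Fintype.card_fin, nsmul_eq_mul]
      apply le_of_eq
      push_cast; ring
    have h3 : (Λ.card : ℝ) ≤ (d0 : ℝ) := h1.trans (Nat.le_ceil _)
    exact Nat.cast_le.mp h3
  obtain ⟨Q, hQ1, hQ2, hQ⟩ := dirichlet Λ (fun r => (r : ℝ) / M) K hK0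
  have hQ0 : Q ≤ K ^ d0 := hQ2.trans (Nat.pow_le_pow_right hK0 hΛ)
  refine ⟨Q, hQ1, hQ0, fun w hw j hj => ?_⟩
  rw [W_eq, W_eq, ← sum_sub_distrib]
  refine (abs_sum_le_sum_abs _ _).trans ?_
  have hs : ((a + b + c) * n : ℤ) + |(Q : ℤ) * j| < M := by
    rw [abs_mul, Nat.abs_cast, hM, hJ]
    push_cast
    have h1 : (Q : ℤ) ≤ n := by exact_mod_cast hQ0.trans hn
    have h2 : (Q : ℤ) * |j| ≤ n * (a + b + c) :=
      mul_le_mul h1 hj (abs_nonneg _) (by positivity)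
    have h3 : (0 : ℤ) < n := by exact_mod_cast hn0
    have h4 : (0 : ℤ) < a + b + c := by
      have : (0 : ℤ) < a := by exact_mod_cast ha
      positivity
    nlinarith
  have hterm : ∀ p : Fin 3 × Fin 3 × Fin 3,
      |w p.1 p.2.1 p.2.2 * T a b c n (ind f p.1) (ind f p.2.1) (ind f p.2.2) (Q * j)
        - w p.1 p.2.1 p.2.2 * T a b c n (ind f p.1) (ind f p.2.1) (ind f p.2.2) 0|
        ≤ 2 * δ * n ^ 2 := by
    intro p
    rw [← mul_sub, abs_mul]
    have h1 := T_diff a b c n M ha hb hM0 (ind f p.1) (ind f p.2.1) (ind f p.2.2)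
      (abs_ind _ _) (abs_ind _ _) (abs_ind _ _) (Q * j) hs δ hδ0.le (by
        intro r hr hbig
        have hrΛ : r ∈ Λ := mem_biUnion.mpr ⟨p.2.2, mem_univ _, mem_filter.mpr ⟨hr, hbig⟩⟩
        obtain ⟨m, hm⟩ := hQ r hrΛ
        refine (norm_E_sub_one _ (-j * m)).trans ?_
        have e : (r : ℝ) * (((-((Q : ℤ) * j) : ℤ) : ℝ) / M) - ((-j * m : ℤ) : ℝ)
            = -(j : ℝ) * (Q * (r / M) - m) := by
          push_cast; ring
        rw [e, abs_mul, abs_neg]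
        have hj' : |(j : ℝ)| ≤ J := by
          rw [hJ]; push_cast; exact_mod_cast hj
        have h2 : |(j : ℝ)| * |(Q : ℝ) * (r / M) - m| ≤ J * (1 / K) :=
          mul_le_mul hj' hm (abs_nonneg _) (by positivity)
        have h3 : 4 * J / δ ≤ K := Nat.le_ceil _
        rw [div_le_iff₀ hδ0] at h3
        have h4 : (J : ℝ) * (1 / K) ≤ δ / 4 := by
          rw [mul_one_div, div_le_iff₀ hKr]; linarith
        have h5 := Real.pi_le_four
        have h6 : 0 ≤ |(j : ℝ)| * |(Q : ℝ) * (r / M) - m| := by positivity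
        nlinarith [Real.pi_pos])
    calc _ ≤ 1 * (2 * δ * n ^ 2) := mul_le_mul (hw _ _ _) h1 (abs_nonneg _) (by norm_num)
      _ = _ := by ring
  refine (sum_le_sum fun p _ => hterm p).trans ?_
  simp only [sum_const, card_univ, Fintype.card_prod, Fintype.card_fin, nsmul_eq_mul]
  apply le_of_eq
  rw [hδ]; push_cast; ring

lemma rep_unique {L Q x t x' t' : ℕ} (hLQ : Nat.Coprime L Q) (ht : t < L) (ht' : t' < L)
    (h : L * x + Q * t = L * x' + Q * t') : x = x' ∧ t = t' := by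
  have h1 : Q * t ≡ Q * t' [MOD L] := by
    have : L * x + Q * t ≡ L * x' + Q * t' [MOD L] := by rw [h]
    unfold Nat.ModEq at this ⊢
    rwa [Nat.mul_add_mod, Nat.mul_add_mod] at this
  have h2 : t ≡ t' [MOD L] := Nat.ModEq.cancel_left_of_coprime hLQ h1
  have h3 : t = t' := Nat.ModEq.eq_of_lt_of_lt h2 ht ht'
  subst h3
  have hL : 0 < L := by omega
  exact ⟨Nat.eq_of_mul_eq_mul_left hL (by omega), rfl⟩

/-- The blow-up: a colouring of `[n]` is transported to `[N]`. -/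
lemma transfer (a b c : ℕ) (w : Fin 3 → Fin 3 → Fin 3 → ℝ) (hw : ∀ i j k, 0 ≤ w i j k)
    (n : ℕ) (f : ℕ → Fin 3) (Q L N : ℕ) (hL : 0 < L) (hLQ : Nat.Coprime L Q)
    (hLc : Nat.Coprime L c) (hN : L * (n + Q) ≤ N) (η : ℝ)
    (hW : ∀ j : ℤ, |j| ≤ a + b + c → η ≤ W a b c w n f (Q * j)) :
    ∃ g : ℕ → Fin 3, (L : ℝ) ^ 2 * η ≤ W a b c w N g 0 := by
  classical
  let g : ℕ → Fin 3 := fun X =>
    if h : ∃ p : ℕ × ℕ, p.2 < L ∧ X = L * p.1 + Q * p.2 then f h.choose.1 else 0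
  have hg : ∀ x t, t < L → g (L * x + Q * t) = f x := by
    intro x t ht
    have h : ∃ p : ℕ × ℕ, p.2 < L ∧ L * x + Q * t = L * p.1 + Q * p.2 := ⟨(x, t), ht, rfl⟩
    simp only [g]
    rw [dif_pos h]
    have := h.choose_spec
    rw [← (rep_unique hLQ ht this.1 this.2).1]
  refine ⟨g, ?_⟩
  let G : ℕ × ℕ × ℕ → ℝ := fun p =>
    if (a : ℤ) * p.1 + b * p.2.1 - c * p.2.2 = 0 then w (g p.1) (g p.2.1) (g p.2.2) else 0
  have hWG : W a b c w N g 0 = ∑ p ∈ Icc 1 N ×ˢ Icc 1 N ×ˢ Icc 1 N, G p := by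
    unfold W
    rw [sum_product]
    refine sum_congr rfl fun x _ => ?_
    rw [sum_product]
  let Ψ : (ℕ × ℕ) × ℕ × ℕ × ℕ → ℕ × ℕ × ℕ := fun q =>
    (L * q.2.1 + Q * (c * q.1.1 % L), L * q.2.2.1 + Q * (c * q.1.2 % L),
      L * q.2.2.2 + Q * ((a * q.1.1 + b * q.1.2) % L))
  let D : Finset ((ℕ × ℕ) × ℕ × ℕ × ℕ) :=
    (range L ×ˢ range L) ×ˢ (Icc 1 n ×ˢ Icc 1 n ×ˢ Icc 1 n)
  have hinj : Set.InjOn Ψ D := by
    rintro ⟨⟨i, k⟩, x, y, z⟩ hp ⟨⟨i', k'⟩, x', y', z'⟩ hq h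
    simp only [D, coe_product, Set.mem_prod, mem_coe, mem_range] at hp hq
    simp only [Ψ, Prod.mk.injEq] at h
    obtain ⟨h1, h2, h3⟩ := h
    have r1 := rep_unique hLQ (Nat.mod_lt _ hL) (Nat.mod_lt _ hL) h1
    have r2 := rep_unique hLQ (Nat.mod_lt _ hL) (Nat.mod_lt _ hL) h2
    have r3 := rep_unique hLQ (Nat.mod_lt _ hL) (Nat.mod_lt _ hL) h3
    have s1 : i = i' :=
      Nat.ModEq.eq_of_lt_of_lt (Nat.ModEq.cancel_left_of_coprime hLc r1.2) hp.1.1 hq.1.1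
    have s2 : k = k' :=
      Nat.ModEq.eq_of_lt_of_lt (Nat.ModEq.cancel_left_of_coprime hLc r2.2) hp.1.2 hq.1.2
    rw [s1, s2, r1.1, r2.1, r3.1]
  have hmem : ∀ x t, x ∈ Icc 1 n → t < L → L * x + Q * t ∈ Icc 1 N := by
    intro x t hx ht
    rw [mem_Icc] at hx ⊢
    constructor
    · have : 0 < L * x := Nat.mul_pos hL (by omega)
      omega
    · have h1 : L * x ≤ L * n := Nat.mul_le_mul_left _ hx.2
      have h2 : Q * t ≤ L * Q := by rw [mul_comm L]; exact Nat.mul_le_mul_left _ ht.le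
      rw [mul_add] at hN
      omega
  have hsub : D.image Ψ ⊆ Icc 1 N ×ˢ Icc 1 N ×ˢ Icc 1 N := by
    intro p hp
    obtain ⟨⟨⟨i, k⟩, x, y, z⟩, hq, rfl⟩ := mem_image.mp hp
    simp only [D, mem_product] at hq
    simp only [Ψ, mem_product]
    exact ⟨hmem _ _ hq.2.1 (Nat.mod_lt _ hL), hmem _ _ hq.2.2.1 (Nat.mod_lt _ hL),
      hmem _ _ hq.2.2.2 (Nat.mod_lt _ hL)⟩
  have hG0 : ∀ p, 0 ≤ G p := by
    intro p; simp only [G]; split_ifs
    · exact hw _ _ _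
    · exact le_rfl
  have h1 : ∑ p ∈ D.image Ψ, G p ≤ ∑ p ∈ Icc 1 N ×ˢ Icc 1 N ×ˢ Icc 1 N, G p :=
    sum_le_sum_of_subset_of_nonneg hsub fun p _ _ => hG0 p
  rw [hWG]
  refine le_trans ?_ h1
  rw [sum_image hinj]
  simp only [D]
  rw [sum_product]
  have hcard : (L : ℝ) ^ 2 * η = ∑ _q ∈ range L ×ˢ range L, η := by
    simp only [sum_const, card_product, card_range, nsmul_eq_mul]
    push_cast; ring
  rw [hcard]
  refine sum_le_sum fun q _ => ?_
  obtain ⟨i, k⟩ := q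
  -- the shift
  set t1 : ℕ := c * i % L with ht1
  set t2 : ℕ := c * k % L with ht2
  set t3 : ℕ := (a * i + b * k) % L with ht3
  have l1 : t1 < L := Nat.mod_lt _ hL
  have l2 : t2 < L := Nat.mod_lt _ hL
  have l3 : t3 < L := Nat.mod_lt _ hL
  have hdiv : ∃ j : ℤ, (c : ℤ) * t3 - a * t1 - b * t2 = L * j := by
    have e1 : (t1 : ℤ) = c * i - L * ((c * i / L : ℕ) : ℤ) := by
      have := Nat.mod_add_div (c * i) L
      rw [← ht1] at this
      have h' : ((t1 + L * (c * i / L) : ℕ) : ℤ) = ((c * i : ℕ) : ℤ) := by rw [this]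
      rw [Nat.cast_add, Nat.cast_mul, Nat.cast_mul] at h'
      linarith
    have e2 : (t2 : ℤ) = c * k - L * ((c * k / L : ℕ) : ℤ) := by
      have := Nat.mod_add_div (c * k) L
      rw [← ht2] at this
      have h' : ((t2 + L * (c * k / L) : ℕ) : ℤ) = ((c * k : ℕ) : ℤ) := by rw [this]
      rw [Nat.cast_add, Nat.cast_mul, Nat.cast_mul] at h'
      linarith
    have e3 : (t3 : ℤ) = a * i + b * k - L * (((a * i + b * k) / L : ℕ) : ℤ) := by
      have := Nat.mod_add_div (a * i + b * k) L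
      rw [← ht3] at this
      have h' : ((t3 + L * ((a * i + b * k) / L) : ℕ) : ℤ) = ((a * i + b * k : ℕ) : ℤ) := by
        rw [this]
      rw [Nat.cast_add, Nat.cast_mul, Nat.cast_add, Nat.cast_mul, Nat.cast_mul] at h'
      linarith
    refine ⟨a * ((c * i / L : ℕ) : ℤ) + b * ((c * k / L : ℕ) : ℤ)
      - c * (((a * i + b * k) / L : ℕ) : ℤ), ?_⟩
    rw [e1, e2, e3]; ring
  obtain ⟨j, hj⟩ := hdiv
  have hLz : (0 : ℤ) < L := by exact_mod_cast hL
  have hjb : |j| ≤ a + b + c := by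
    have m1 : (a : ℤ) * t1 ≤ a * L := mul_le_mul_of_nonneg_left (by omega) (by positivity)
    have m2 : (b : ℤ) * t2 ≤ b * L := mul_le_mul_of_nonneg_left (by omega) (by positivity)
    have m3 : (c : ℤ) * t3 ≤ c * L := mul_le_mul_of_nonneg_left (by omega) (by positivity)
    have n1 : 0 ≤ (a : ℤ) * t1 := by positivity
    have n2 : 0 ≤ (b : ℤ) * t2 := by positivity
    have n3 : 0 ≤ (c : ℤ) * t3 := by positivity
    have o1 : 0 ≤ (a : ℤ) * L := by positivity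
    have o2 : 0 ≤ (b : ℤ) * L := by positivity
    have o3 : 0 ≤ (c : ℤ) * L := by positivity
    rw [abs_le]
    constructor
    · apply le_of_mul_le_mul_left _ hLz
      nlinarith
    · apply le_of_mul_le_mul_left _ hLz
      nlinarith
  refine (hW j hjb).trans (le_of_eq ?_)
  unfold W
  rw [sum_product]
  refine sum_congr rfl fun x _ => ?_
  rw [sum_product]
  refine sum_congr rfl fun y _ => sum_congr rfl fun z _ => ?_
  simp only [G, Ψ]
  rw [← ht1, ← ht2, ← ht3, hg x t1 l1, hg y t2 l2, hg z t3 l3]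
  have e : (a : ℤ) * ((L * x + Q * t1 : ℕ) : ℤ) + b * ((L * y + Q * t2 : ℕ) : ℤ)
      - c * ((L * z + Q * t3 : ℕ) : ℤ) = L * ((a : ℤ) * x + b * y - c * z - Q * j) := by
    push_cast
    linear_combination (-(Q : ℤ)) * hj
  rw [e]
  by_cases h : (a : ℤ) * x + b * y - c * z = Q * j
  · rw [if_pos h, if_pos (by rw [h]; ring)]
  · rw [if_neg h, if_neg]
    intro h0
    rcases mul_eq_zero.mp h0 with h0 | h0
    · omega
    · exact h (by omega)

end Pool.Agent.H.MP_0bef22_co
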