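import Pool.Agent.H.MP_0bef22_co.B

namespace Pool.Agent.H.MP_0bef22_co

open Finset Filter Topology

lemma W_nonneg (a b c : ℕ) (w : Fin 3 → Fin 3 → Fin 3 → ℝ) (hw : ∀ i j k, 0 ≤ w i j k)
    (n : ℕ) (f : ℕ → Fin 3) (s : ℤ) : 0 ≤ W a b c w n f s := by
  unfold W
  refine sum_nonneg fun x _ => sum_nonneg fun y _ => sum_nonneg fun z _ => ?_
  split_ifs
  · exact hw _ _ _
  · exact le_rfl

lemma W_le (a b c : ℕ) (hc : 0 < c) (w : Fin 3 → Fin 3 → Fin 3 → ℝ) (hw1 : ∀ i j k, w i j k ≤ 1)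
    (n : ℕ) (f : ℕ → Fin 3) (s : ℤ) : W a b c w n f s ≤ (n : ℝ) ^ 2 := by
  classical
  unfold W
  have h : ∀ x y : ℕ, ∑ z ∈ Icc 1 n,
      (if (a : ℤ) * x + b * y - c * z = s then w (f x) (f y) (f z) else 0) ≤ 1 := by
    intro x y
    have h1 : ∑ z ∈ Icc 1 n,
        (if (a : ℤ) * x + b * y - c * z = s then w (f x) (f y) (f z) else 0)
        ≤ ∑ z ∈ Icc 1 n, (if (a : ℤ) * x + b * y - c * z = s then (1 : ℝ) else 0) := by
      refine sum_le_sum fun z _ => ?_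
      split_ifs
      · exact hw1 _ _ _
      · exact le_rfl
    refine h1.trans ?_
    rw [sum_boole]
    have : ((Icc 1 n).filter fun z : ℕ => (a : ℤ) * x + b * y - c * z = s).card ≤ 1 := by
      rw [card_le_one]
      intro z hz z' hz'
      have e1 := (mem_filter.mp hz).2
      have e2 := (mem_filter.mp hz').2
      have e3 : (c : ℤ) * z = c * z' := by omega
      have e4 : (z : ℤ) = z' := mul_left_cancel₀ (by exact_mod_cast hc.ne') e3
      exact_mod_cast e4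
    exact_mod_cast this
  refine (sum_le_sum fun x _ => sum_le_sum fun y _ => h x y).trans ?_
  simp [sq]

noncomputable def S (a b c : ℕ) (w : Fin 3 → Fin 3 → Fin 3 → ℝ) (n : ℕ) : ℝ :=
  sSup (Set.range fun f : ℕ → Fin 3 => W a b c w n f 0)

lemma bdd (a b c : ℕ) (hc : 0 < c) (w : Fin 3 → Fin 3 → Fin 3 → ℝ) (hw1 : ∀ i j k, w i j k ≤ 1)
    (n : ℕ) : BddAbove (Set.range fun f : ℕ → Fin 3 => W a b c w n f 0) :=
  ⟨(n : ℝ) ^ 2, by rintro _ ⟨f, rfl⟩; exact W_le a b c hc w hw1 n f 0⟩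

lemma W_le_S (a b c : ℕ) (hc : 0 < c) (w : Fin 3 → Fin 3 → Fin 3 → ℝ)
    (hw1 : ∀ i j k, w i j k ≤ 1) (n : ℕ) (f : ℕ → Fin 3) : W a b c w n f 0 ≤ S a b c w n :=
  le_csSup (bdd a b c hc w hw1 n) ⟨f, rfl⟩

lemma S_nonneg (a b c : ℕ) (hc : 0 < c) (w : Fin 3 → Fin 3 → Fin 3 → ℝ)
    (hw : ∀ i j k, 0 ≤ w i j k) (hw1 : ∀ i j k, w i j k ≤ 1) (n : ℕ) : 0 ≤ S a b c w n :=
  (W_nonneg a b c w hw n (fun _ => 0) 0).trans (W_le_S a b c hc w hw1 n _)

lemma S_le (a b c : ℕ) (hc : 0 < c) (w : Fin 3 → Fin 3 → Fin 3 → ℝ)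
    (hw1 : ∀ i j k, w i j k ≤ 1) (n : ℕ) : S a b c w n ≤ (n : ℝ) ^ 2 :=
  csSup_le (Set.range_nonempty _) (by rintro _ ⟨f, rfl⟩; exact W_le a b c hc w hw1 n f 0)

lemma key (a b c : ℕ) (ha : 0 < a) (hb : 0 < b) (hc : 0 < c) (w : Fin 3 → Fin 3 → Fin 3 → ℝ)
    (hw : ∀ i j k, 0 ≤ w i j k) (hw1 : ∀ i j k, w i j k ≤ 1) (ε : ℝ) (hε : 0 < ε) :
    ∀ᶠ n : ℕ in atTop, ∀ᶠ N : ℕ in atTop,
      S a b c w n / (n : ℝ) ^ 2 - ε ≤ S a b c w N / (N : ℝ) ^ 2 := by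
  set e : ℝ := ε / 8 with he
  have he0 : 0 < e := by positivity
  obtain ⟨Q0, hQ0, hAP⟩ := almost_periodic a b c ha hb hc e he0
  filter_upwards [eventually_ge_atTop Q0, eventually_ge_atTop ⌈Q0 / e⌉₊] with n hn1 hn2
  have hn0 : 0 < n := by omega
  have hnr : (0 : ℝ) < n := by exact_mod_cast hn0
  have hn3 : (Q0 : ℝ) ≤ e * n := by
    have : (Q0 : ℝ) / e ≤ n := (Nat.le_ceil _).trans (by exact_mod_cast hn2)
    rw [div_le_iff₀ he0] at this; linarith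
  obtain ⟨_, ⟨f, rfl⟩, hf⟩ := exists_lt_of_lt_csSup
    (Set.range_nonempty fun f : ℕ → Fin 3 => W a b c w n f 0)
    (show S a b c w n - e * n ^ 2 < S a b c w n by
      have : 0 < e * (n : ℝ) ^ 2 := by positivity
      linarith)
  obtain ⟨Q, hQ1, hQ2, hQ⟩ := hAP n hn1 f
  have hwabs : ∀ i j k, |w i j k| ≤ 1 := fun i j k =>
    abs_le.mpr ⟨by linarith [hw i j k], hw1 i j k⟩
  set η : ℝ := S a b c w n - 2 * e * n ^ 2 with hη
  have hW : ∀ j : ℤ, |j| ≤ a + b + c → η ≤ W a b c w n f (Q * j) := by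
    intro j hj
    have := abs_le.mp (hQ w hwabs j hj)
    simp only at hf
    linarith [this.1]
  set P : ℕ := c * Q with hP
  have hP0 : 0 < P := Nat.mul_pos hc hQ1
  set B : ℕ := n + Q with hB
  have hB0 : 0 < B := by omega
  filter_upwards [eventually_ge_atTop B, eventually_ge_atTop ⌈n * (P + 1) / e⌉₊] with N hN1 hN2
  have hN0 : 0 < N := by omega
  have hNr : (0 : ℝ) < N := by exact_mod_cast hN0
  have hN3 : (n : ℝ) * (P + 1) ≤ e * N := by
    have : (n : ℝ) * (P + 1) / e ≤ N := (Nat.le_ceil _).trans (by exact_mod_cast hN2)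
    rw [div_le_iff₀ he0] at this; linarith
  have hS0 := S_nonneg a b c hc w hw hw1 N
  by_cases hη0 : η ≤ 0
  · have h1 : S a b c w n / (n : ℝ) ^ 2 ≤ 2 * e := by
      rw [div_le_iff₀ (by positivity)]; linarith
    have h2 : 0 ≤ S a b c w N / (N : ℝ) ^ 2 := by positivity
    linarith
  push Not at hη0
  set R : ℕ := N / B with hR
  have hR1 : 1 ≤ R := (Nat.le_div_iff_mul_le hB0).mpr (by omega)
  set m : ℕ := (R - 1) / P with hm
  set L : ℕ := 1 + P * m with hL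
  have hLR : L ≤ R := by
    have : P * m ≤ R - 1 := Nat.mul_div_le (R - 1) P
    rw [hL]
    clear_value R
    omega
  have hLR2 : R ≤ L + P := by
    have h1 : (R - 1) % P + P * m = R - 1 := Nat.mod_add_div (R - 1) P
    have h2 := Nat.mod_lt (R - 1) hP0
    rw [hL]
    generalize (R - 1) % P = u at h1 h2
    clear_value R
    omega
  have hLN : L * (n + Q) ≤ N := by
    have := Nat.div_mul_le_self N B
    calc L * (n + Q) ≤ R * B := Nat.mul_le_mul_right _ hLR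
      _ ≤ N := this
  have hNB : N < (R + 1) * B := by
    have h1 : N % B + B * R = N := Nat.mod_add_div N B
    have h2 := Nat.mod_lt N hB0
    rw [add_mul, mul_comm R B]
    generalize N % B = u at h1 h2
    omega
  have hLQ : Nat.Coprime L Q := by
    rw [hL, hP, mul_comm c Q, mul_assoc]
    simp
  have hLc : Nat.Coprime L c := by
    rw [hL, hP, mul_assoc]
    simp
  obtain ⟨g, hg⟩ := transfer a b c w hw n f Q L N (by omega) hLQ hLc hLN η hW
  have h1 : (L : ℝ) ^ 2 * η ≤ S a b c w N := hg.trans (W_le_S a b c hc w hw1 N g)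
  -- L * n ≥ (1 - 2 e) N
  have hQr : (Q : ℝ) ≤ e * n := (by exact_mod_cast hQ2 : (Q : ℝ) ≤ Q0).trans hn3
  have h2 : (N : ℝ) ≤ ((L : ℝ) + P + 1) * (n + Q) := by
    have : N ≤ (L + P + 1) * (n + Q) :=
      hNB.le.trans (Nat.mul_le_mul_right _ (by omega))
    exact_mod_cast this
  have h3 : (L : ℝ) * (n + Q) ≤ N := by exact_mod_cast hLN
  have hL0 : (0 : ℝ) ≤ L := by positivity
  have hQ0' : (0 : ℝ) ≤ Q := by positivity
  have hQn : (Q : ℝ) ≤ n := by exact_mod_cast hQ2.trans hn1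
  have h4 : (1 - 3 * e) * N ≤ (L : ℝ) * n := by
    have k1 : (L : ℝ) * Q ≤ e * N := by
      have : (L : ℝ) * Q ≤ L * (e * n) := mul_le_mul_of_nonneg_left hQr hL0
      have k : (L : ℝ) * n ≤ N := by nlinarith
      nlinarith
    have k2 : ((P : ℝ) + 1) * (n + Q) ≤ 2 * (e * N) := by
      have : ((P : ℝ) + 1) * (n + Q) ≤ (P + 1) * (2 * n) :=
        mul_le_mul_of_nonneg_left (by linarith) (by positivity)
      nlinarith
    nlinarith
  set x : ℝ := (L : ℝ) * n / N with hx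
  have hx1 : 1 - 3 * e ≤ x := by rw [hx, le_div_iff₀ hNr]; exact h4
  have hx2 : 1 - 6 * e ≤ x ^ 2 := by nlinarith [sq_nonneg (x - 1)]
  set y : ℝ := η / (n : ℝ) ^ 2 with hy
  have hy0 : 0 ≤ y := by positivity
  have hy1 : y = S a b c w n / (n : ℝ) ^ 2 - 2 * e := by
    rw [hy, hη]; field_simp
  have hy2 : y ≤ 1 - 2 * e := by
    have : S a b c w n / (n : ℝ) ^ 2 ≤ 1 := by
      rw [div_le_one (by positivity)]; exact S_le a b c hc w hw1 n
    linarith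
  have h5 : x ^ 2 * y ≤ S a b c w N / (N : ℝ) ^ 2 := by
    have : x ^ 2 * y = (L : ℝ) ^ 2 * η / (N : ℝ) ^ 2 := by
      rw [hx, hy]; field_simp
    rw [this]
    exact div_le_div_of_nonneg_right h1 (by positivity)
  have h6 : (1 - 6 * e) * y ≤ x ^ 2 * y := mul_le_mul_of_nonneg_right hx2 hy0
  have h7 : e * y ≤ e * 1 := mul_le_mul_of_nonneg_left (by linarith) he0.le
  nlinarith

lemma conv (s : ℕ → ℝ) (h0 : ∀ n, 0 ≤ s n) (h1 : ∀ n, s n ≤ 1)
    (h : ∀ ε > 0, ∀ᶠ n : ℕ in atTop, ∀ᶠ N : ℕ in atTop, s n - ε ≤ s N) :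
    ∃ l, Tendsto s atTop (𝓝 l) := by
  have hb1 : IsBoundedUnder (· ≤ ·) atTop s := isBoundedUnder_of ⟨1, h1⟩
  have hb2 : IsBoundedUnder (· ≥ ·) atTop s := isBoundedUnder_of ⟨0, h0⟩
  refine ⟨limsup s atTop, tendsto_of_le_liminf_of_limsup_le ?_ le_rfl hb1 hb2⟩
  refine le_of_forall_pos_le_add fun ε hε => ?_
  have h2 : ∀ᶠ n : ℕ in atTop, s n ≤ liminf s atTop + ε := by
    filter_upwards [h ε hε] with n hn
    have : s n - ε ≤ liminf s atTop := le_liminf_of_le hb1.isCoboundedUnder_ge hn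
    linarith
  exact limsup_le_of_le hb2.isCoboundedUnder_le h2

lemma S_conv (a b c : ℕ) (ha : 0 < a) (hb : 0 < b) (hc : 0 < c)
    (w : Fin 3 → Fin 3 → Fin 3 → ℝ) (hw : ∀ i j k, 0 ≤ w i j k) (hw1 : ∀ i j k, w i j k ≤ 1) :
    ∃ l, Tendsto (fun n : ℕ => S a b c w n / (n : ℝ) ^ 2) atTop (𝓝 l) := by
  refine conv _ (fun n => ?_) (fun n => ?_) (fun ε hε => key a b c ha hb hc w hw hw1 ε hε)
  · exact div_nonneg (S_nonneg a b c hc w hw hw1 n) (by positivity)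
  · exact div_le_one_of_le₀ (S_le a b c hc w hw1 n) (by positivity)

/-- The number of solutions. -/
noncomputable def t (a b c n : ℕ) : ℝ := W a b c (fun _ _ _ => 1) n (fun _ => 0) 0

lemma S_one (a b c n : ℕ) : S a b c (fun _ _ _ => 1) n = t a b c n := by
  unfold S t
  have : (Set.range fun f : ℕ → Fin 3 => W a b c (fun _ _ _ => 1) n f 0)
      = {W a b c (fun _ _ _ => 1) n (fun _ => 0) 0} := by
    ext r
    constructor
    · rintro ⟨f, rfl⟩; rfl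
    · rintro rfl; exact ⟨fun _ => 0, rfl⟩
  rw [this, csSup_singleton]

lemma t_lower (a b c : ℕ) (ha : 0 < a) (hc : 0 < c) (m : ℕ) :
    (m : ℝ) ^ 2 ≤ t a b c ((a + b + c) * m) := by
  classical
  set n := (a + b + c) * m with hn
  let G : ℕ × ℕ × ℕ → ℝ := fun p =>
    if (a : ℤ) * p.1 + b * p.2.1 - c * p.2.2 = 0 then 1 else 0
  have hWG : t a b c n = ∑ p ∈ Icc 1 n ×ˢ Icc 1 n ×ˢ Icc 1 n, G p := by
    unfold t W
    rw [sum_product]
    refine sum_congr rfl fun x _ => ?_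
    rw [sum_product]
  let Ψ : ℕ × ℕ → ℕ × ℕ × ℕ := fun q => (c * q.1, c * q.2, a * q.1 + b * q.2)
  have hinj : Set.InjOn Ψ (Icc 1 m ×ˢ Icc 1 m : Finset (ℕ × ℕ)) := by
    rintro ⟨i, k⟩ _ ⟨i', k'⟩ _ h
    simp only [Ψ, Prod.mk.injEq] at h
    rw [Nat.eq_of_mul_eq_mul_left hc h.1, Nat.eq_of_mul_eq_mul_left hc h.2.1]
  have hsub : (Icc 1 m ×ˢ Icc 1 m).image Ψ ⊆ Icc 1 n ×ˢ Icc 1 n ×ˢ Icc 1 n := by
    intro p hp
    obtain ⟨⟨i, k⟩, hq, rfl⟩ := mem_image.mp hp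
    simp only [mem_product, mem_Icc] at hq
    simp only [Ψ, mem_product, mem_Icc]
    have e1 : c * i ≤ c * m := Nat.mul_le_mul_left _ hq.1.2
    have e2 : c * k ≤ c * m := Nat.mul_le_mul_left _ hq.2.2
    have e3 : a * i ≤ a * m := Nat.mul_le_mul_left _ hq.1.2
    have e4 : b * k ≤ b * m := Nat.mul_le_mul_left _ hq.2.2
    have f1 : 0 < c * i := Nat.mul_pos hc (by omega)
    have f2 : 0 < c * k := Nat.mul_pos hc (by omega)
    have f3 : 0 < a * i := Nat.mul_pos ha (by omega)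
    rw [add_mul, add_mul] at hn
    omega
  have h1 : ∑ p ∈ (Icc 1 m ×ˢ Icc 1 m).image Ψ, G p
      ≤ ∑ p ∈ Icc 1 n ×ˢ Icc 1 n ×ˢ Icc 1 n, G p :=
    sum_le_sum_of_subset_of_nonneg hsub fun p _ _ => by
      simp only [G]; split_ifs <;> norm_num
  rw [hWG]
  refine le_trans (le_of_eq ?_) h1
  rw [sum_image hinj]
  have : ∀ q ∈ Icc 1 m ×ˢ Icc 1 m, G (Ψ q) = 1 := by
    intro q _
    simp only [G, Ψ]
    rw [if_pos]
    push_cast; ring
  rw [sum_congr rfl this]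
  simp [sq]

lemma t_conv (a b c : ℕ) (ha : 0 < a) (hb : 0 < b) (hc : 0 < c) :
    ∃ τ, 0 < τ ∧ Tendsto (fun n : ℕ => t a b c n / (n : ℝ) ^ 2) atTop (𝓝 τ) := by
  obtain ⟨τ, hτ⟩ := S_conv a b c ha hb hc (fun _ _ _ => 1) (fun _ _ _ => zero_le_one)
    (fun _ _ _ => le_rfl)
  simp only [S_one] at hτ
  refine ⟨τ, ?_, hτ⟩
  have hJ : 0 < a + b + c := by omega
  have hJr : (0 : ℝ) < ((a + b + c : ℕ) : ℝ) := by exact_mod_cast hJ
  have h1 : Tendsto (fun m : ℕ => (a + b + c) * m) atTop atTop :=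
    tendsto_atTop_mono (fun m => Nat.le_mul_of_pos_left m hJ) tendsto_id
  have h2 := hτ.comp h1
  have h3 : 1 / ((a + b + c : ℕ) : ℝ) ^ 2 ≤ τ := by
    refine ge_of_tendsto h2 ?_
    filter_upwards [eventually_ge_atTop 1] with m hm
    have hmr : (0 : ℝ) < m := by exact_mod_cast hm
    simp only [Function.comp]
    rw [Nat.cast_mul, div_le_div_iff₀ (by positivity) (by positivity)]
    have := t_lower a b c ha hc m
    nlinarith [mul_le_mul_of_nonneg_right this (sq_nonneg ((a + b + c : ℕ) : ℝ))]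
  exact lt_of_lt_of_le (by positivity) h3

lemma surj_ext (a b c : ℕ) (w : Fin 3 → Fin 3 → Fin 3 → ℝ) (hw : ∀ i j k, 0 ≤ w i j k)
    (n : ℕ) (f : ℕ → Fin 3) : ∃ g : ℕ → Fin 3, Set.SurjOn g (Set.Icc 1 (n + 3)) Set.univ ∧
      W a b c w n f 0 ≤ W a b c w (n + 3) g 0 := by
  let g : ℕ → Fin 3 := fun x =>
    if x = n + 1 then 0 else if x = n + 2 then 1 else if x = n + 3 then 2 else f x
  refine ⟨g, ?_, ?_⟩
  · intro i _
    fin_cases i
    · exact ⟨n + 1, ⟨by omega, by omega⟩, by simp [g]⟩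
    · exact ⟨n + 2, ⟨by omega, by omega⟩, by simp [g]⟩
    · exact ⟨n + 3, ⟨by omega, by omega⟩, by simp [g]⟩
  · have hg : ∀ x ∈ Icc 1 n, g x = f x := by
      intro x hx
      rw [mem_Icc] at hx
      simp only [g]
      rw [if_neg (by omega), if_neg (by omega), if_neg (by omega)]
    have hsub : Icc 1 n ⊆ Icc 1 (n + 3) := Icc_subset_Icc_right (by omega)
    have hnn : ∀ x y z : ℕ,
        0 ≤ (if (a : ℤ) * x + b * y - c * z = 0 then w (g x) (g y) (g z) else 0) := by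
      intro x y z
      split_ifs
      · exact hw _ _ _
      · exact le_rfl
    unfold W
    refine le_trans (sum_le_sum fun x hx => ?_) (sum_le_sum_of_subset_of_nonneg hsub
      fun x _ _ => sum_nonneg fun y _ => sum_nonneg fun z _ => hnn x y z)
    refine le_trans (sum_le_sum fun y hy => ?_) (sum_le_sum_of_subset_of_nonneg hsub
      fun y _ _ => sum_nonneg fun z _ => hnn x y z)
    refine le_trans (sum_le_sum fun z hz => ?_) (sum_le_sum_of_subset_of_nonneg hsub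
      fun z _ _ => hnn x y z)
    rw [hg x hx, hg y hy, hg z hz]

/-- Extremal proportion over surjective colourings. -/
noncomputable def A (a b c : ℕ) (w : Fin 3 → Fin 3 → Fin 3 → ℝ) (n : ℕ) : ℝ :=
  sSup {r | ∃ f : ℕ → Fin 3, Set.SurjOn f (Set.Icc 1 n) Set.univ ∧
    r = W a b c w n f 0 / t a b c n}

lemma t_nonneg (a b c n : ℕ) : 0 ≤ t a b c n :=
  W_nonneg a b c _ (fun _ _ _ => zero_le_one) n _ 0

lemma A_bdd (a b c : ℕ) (hc : 0 < c) (w : Fin 3 → Fin 3 → Fin 3 → ℝ)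
    (hw1 : ∀ i j k, w i j k ≤ 1) (n : ℕ) :
    BddAbove {r | ∃ f : ℕ → Fin 3, Set.SurjOn f (Set.Icc 1 n) Set.univ ∧
      r = W a b c w n f 0 / t a b c n} := by
  refine ⟨S a b c w n / t a b c n, ?_⟩
  rintro _ ⟨f, _, rfl⟩
  exact div_le_div_of_nonneg_right (W_le_S a b c hc w hw1 n f) (t_nonneg a b c n)

theorem A_conv (a b c : ℕ) (ha : 0 < a) (hb : 0 < b) (hc : 0 < c)
    (w : Fin 3 → Fin 3 → Fin 3 → ℝ) (hw : ∀ i j k, 0 ≤ w i j k) (hw1 : ∀ i j k, w i j k ≤ 1) :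
    ∃ l, Tendsto (A a b c w) atTop (𝓝 l) := by
  obtain ⟨σ, hσ⟩ := S_conv a b c ha hb hc w hw hw1
  obtain ⟨τ, hτ0, hτ⟩ := t_conv a b c ha hb hc
  refine ⟨σ / τ, ?_⟩
  rw [← tendsto_add_atTop_iff_nat 3]
  have hσ3 := (tendsto_add_atTop_iff_nat 3).mpr hσ
  have hτ3 := (tendsto_add_atTop_iff_nat 3).mpr hτ
  have hr : Tendsto (fun n : ℕ => ((n : ℝ) / ((n : ℝ) + 3)) ^ 2) atTop (𝓝 (1 ^ 2)) :=
    (tendsto_natCast_div_add_atTop (3 : ℝ)).pow 2
  have hlo := (hσ.mul hr).div hτ3 hτ0.ne'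
  have hhi := hσ3.div hτ3 hτ0.ne'
  rw [one_pow, mul_one] at hlo
  have hpos : ∀ᶠ n : ℕ in atTop, 0 < t a b c (n + 3) := by
    filter_upwards [hτ3.eventually (lt_mem_nhds hτ0)] with n hn
    by_contra h
    have h0 : t a b c (n + 3) = 0 := le_antisymm (not_lt.mp h) (t_nonneg a b c _)
    rw [h0] at hn
    simp at hn
  refine tendsto_of_tendsto_of_tendsto_of_le_of_le' hlo hhi ?_ ?_
  · filter_upwards [hpos, eventually_ge_atTop 1] with n hn hn1
    have hnr : (0 : ℝ) < n := by exact_mod_cast hn1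
    have e : S a b c w n / (n : ℝ) ^ 2 * ((n : ℝ) / ((n : ℝ) + 3)) ^ 2
        / (t a b c (n + 3) / (((n + 3 : ℕ) : ℝ)) ^ 2) = S a b c w n / t a b c (n + 3) := by
      push_cast; field_simp
    simp only [Pi.div_apply]
    rw [e, div_le_iff₀ hn]
    refine csSup_le (Set.range_nonempty _) ?_
    rintro _ ⟨f, rfl⟩
    obtain ⟨g, hg1, hg2⟩ := surj_ext a b c w hw n f
    have : W a b c w (n + 3) g 0 / t a b c (n + 3) ≤ A a b c w (n + 3) :=
      le_csSup (A_bdd a b c hc w hw1 (n + 3)) ⟨g, hg1, rfl⟩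
    rw [div_le_iff₀ hn] at this
    exact hg2.trans this
  · filter_upwards [hpos] with n hn
    have e : S a b c w (n + 3) / (((n + 3 : ℕ) : ℝ)) ^ 2
        / (t a b c (n + 3) / (((n + 3 : ℕ) : ℝ)) ^ 2) = S a b c w (n + 3) / t a b c (n + 3) := by
      push_cast; field_simp
    simp only [Pi.div_apply]
    rw [e]
    obtain ⟨g, hg1, _⟩ := surj_ext a b c w hw n (fun _ => 0)
    refine csSup_le ⟨_, g, hg1, rfl⟩ ?_
    rintro _ ⟨f, _, rfl⟩
    exact div_le_div_of_nonneg_right (W_le_S a b c hc w hw1 _ f) hn.le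

lemma t_pos (a b c : ℕ) (ha : 0 < a) (hb : 0 < b) (hc : 0 < c) :
    ∀ᶠ n : ℕ in atTop, 0 < t a b c n := by
  obtain ⟨τ, hτ0, hτ⟩ := t_conv a b c ha hb hc
  filter_upwards [hτ.eventually (lt_mem_nhds hτ0)] with n hn
  by_contra h
  have h0 : t a b c n = 0 := le_antisymm (not_lt.mp h) (t_nonneg a b c _)
  rw [h0] at hn
  simp at hn

end Pool.Agent.H.MP_0bef22_co
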